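import Pool.Agent.W761.CC.Stms

/-!
# Project CC (helper761), part CUT: the energy of a cut off
-/

set_option autoImplicit false

open MeasureTheory
open scoped ENNReal

namespace Pool.Agent.W327.CC

open Pool.Agent.W761.CB Pool.Agent.W761.CC

noncomputable section

/-- the cut off function -/
def chi {n : ℕ} (r : ℝ) (x : Fin n → ℝ) : ℝ := max 0 (min 1 (2 - 2 * ‖x‖ / r))

variable {n : ℕ} {r : ℝ}

lemma cutf_eq (u : (Fin n → ℝ) → ℝ) (x : Fin n → ℝ) : cutf r u x = 1 + chi r x * (u x - 1) := rfl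

lemma chi_nonneg (x : Fin n → ℝ) : 0 ≤ chi r x := le_max_left _ _

lemma chi_le_one (x : Fin n → ℝ) : chi r x ≤ 1 := max_le zero_le_one (min_le_left _ _)

lemma mem_cube_iff (hr : 0 ≤ r) (x : Fin n → ℝ) : x ∈ cube n r ↔ ‖x‖ ≤ r := by
  rw [pi_norm_le_iff_of_nonneg hr]
  rfl

lemma chi_zero (hr : 0 < r) {x : Fin n → ℝ} (hx : x ∉ cube n r) : chi r x = 0 := by
  rw [mem_cube_iff hr.le, not_le] at hx
  unfold chi
  apply max_eq_left
  apply (min_le_right _ _).trans
  have : 2 ≤ 2 * ‖x‖ / r := by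
    rw [le_div_iff₀ hr]
    linarith
  linarith

lemma chi_lip (hr : 0 < r) (x s : Fin n → ℝ) : |chi r (x + s) - chi r x| ≤ 2 * ‖s‖ / r := by
  unfold chi
  have h1 : |max 0 (min 1 (2 - 2 * ‖x + s‖ / r)) - max 0 (min 1 (2 - 2 * ‖x‖ / r))| ≤
      |min 1 (2 - 2 * ‖x + s‖ / r) - min 1 (2 - 2 * ‖x‖ / r)| := by
    rw [max_comm 0, max_comm 0]
    exact abs_max_sub_max_le_abs _ _ _
  have h2 : |min 1 (2 - 2 * ‖x + s‖ / r) - min 1 (2 - 2 * ‖x‖ / r)| ≤
      |(2 - 2 * ‖x + s‖ / r) - (2 - 2 * ‖x‖ / r)| := by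
    have := abs_min_sub_min_le_max 1 (2 - 2 * ‖x + s‖ / r) 1 (2 - 2 * ‖x‖ / r)
    simpa using this
  refine h1.trans (h2.trans ?_)
  have h3 : (2 - 2 * ‖x + s‖ / r) - (2 - 2 * ‖x‖ / r) = 2 / r * (‖x‖ - ‖x + s‖) := by ring
  rw [h3, abs_mul, abs_of_pos (by positivity)]
  have h4 : |‖x‖ - ‖x + s‖| ≤ ‖s‖ := by
    have := abs_norm_sub_norm_le x (x + s)
    simpa using this
  calc 2 / r * |‖x‖ - ‖x + s‖| ≤ 2 / r * ‖s‖ := mul_le_mul_of_nonneg_left h4 (by positivity)
    _ = 2 * ‖s‖ / r := by ring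

lemma measurableSet_cube (n : ℕ) (r : ℝ) : MeasurableSet (cube n r) := by
  have : cube n r = ⋂ c, {z : Fin n → ℝ | |z c| ≤ r} := by
    ext z
    simp [cube]
  rw [this]
  exact MeasurableSet.iInter fun c =>
    measurableSet_le ((measurable_pi_apply c).abs) measurable_const

/-- the set of the points `z` with `z` and `z + s` in the cube -/
def Es (n : ℕ) (r : ℝ) (s : Fin n → ℝ) : Set (Fin n → ℝ) := {z | z ∈ cube n r ∧ z + s ∈ cube n r}

lemma measurableSet_Es (n : ℕ) (r : ℝ) (s : Fin n → ℝ) : MeasurableSet (Es n r s) :=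
  (measurableSet_cube n r).inter
    ((measurableSet_cube n r).preimage (measurable_id.add_const s))

lemma pt (hr : 0 < r) (u : (Fin n → ℝ) → ℝ) (z s : Fin n → ℝ) :
    ENNReal.ofReal ((cutf r u (z + s) - cutf r u z) ^ 2) ≤
      (Es n r s).indicator (fun z => ENNReal.ofReal (2 * (u (z + s) - u z) ^ 2)) z +
      ((cube n r).indicator (fun z => ENNReal.ofReal (2 * (2 * ‖s‖ / r) ^ 2 * (u z - 1) ^ 2)) z +
      (cube n r).indicator (fun z => ENNReal.ofReal (2 * (2 * ‖s‖ / r) ^ 2 * (u z - 1) ^ 2))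
        (z + s)) := by
  have hl := chi_lip hr z s
  have hl2 : (chi r (z + s) - chi r z) ^ 2 ≤ (2 * ‖s‖ / r) ^ 2 := by
    rw [← sq_abs]
    exact pow_le_pow_left₀ (abs_nonneg _) hl 2
  have hc0 := chi_nonneg (r := r) (z + s)
  have hc1 := chi_le_one (r := r) (z + s)
  rw [cutf_eq, cutf_eq]
  by_cases hz : z ∈ cube n r
  · by_cases hzs : z + s ∈ cube n r
    · have hE : z ∈ Es n r s := ⟨hz, hzs⟩
      rw [Set.indicator_of_mem hE, Set.indicator_of_mem hz, Set.indicator_of_mem hzs]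
      refine le_trans ?_ (add_le_add_right (le_add_right le_rfl) _)
      rw [← ENNReal.ofReal_add (by positivity) (by positivity)]
      apply ENNReal.ofReal_le_ofReal
      have e : 1 + chi r (z + s) * (u (z + s) - 1) - (1 + chi r z * (u z - 1)) =
          chi r (z + s) * (u (z + s) - u z) + (chi r (z + s) - chi r z) * (u z - 1) := by ring
      rw [e]
      have h1 : (chi r (z + s) * (u (z + s) - u z) + (chi r (z + s) - chi r z) * (u z - 1)) ^ 2 ≤
          2 * (chi r (z + s) * (u (z + s) - u z)) ^ 2 +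
          2 * ((chi r (z + s) - chi r z) * (u z - 1)) ^ 2 := by
        nlinarith [sq_nonneg (chi r (z + s) * (u (z + s) - u z) -
          (chi r (z + s) - chi r z) * (u z - 1))]
      have h2 : (chi r (z + s) * (u (z + s) - u z)) ^ 2 ≤ (u (z + s) - u z) ^ 2 := by
        rw [mul_pow]
        calc chi r (z + s) ^ 2 * (u (z + s) - u z) ^ 2 ≤ 1 * (u (z + s) - u z) ^ 2 := by
              apply mul_le_mul_of_nonneg_right _ (sq_nonneg _)
              nlinarith
          _ = _ := one_mul _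
      have h3 : ((chi r (z + s) - chi r z) * (u z - 1)) ^ 2 ≤
          (2 * ‖s‖ / r) ^ 2 * (u z - 1) ^ 2 := by
        rw [mul_pow]
        exact mul_le_mul_of_nonneg_right hl2 (sq_nonneg _)
      linarith
    · have hE : z ∉ Es n r s := fun h => hzs h.2
      rw [Set.indicator_of_notMem hE, Set.indicator_of_mem hz, Set.indicator_of_notMem hzs,
        zero_add, add_zero]
      apply ENNReal.ofReal_le_ofReal
      rw [chi_zero hr hzs] at hl2 ⊢
      have e : (1 + 0 * (u (z + s) - 1) - (1 + chi r z * (u z - 1))) ^ 2 =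
          (0 - chi r z) ^ 2 * (u z - 1) ^ 2 := by ring
      rw [e]
      nlinarith [mul_le_mul_of_nonneg_right hl2 (sq_nonneg (u z - 1)),
        mul_nonneg (sq_nonneg (2 * ‖s‖ / r)) (sq_nonneg (u z - 1))]
  · by_cases hzs : z + s ∈ cube n r
    · have hE : z ∉ Es n r s := fun h => hz h.1
      rw [Set.indicator_of_notMem hE, Set.indicator_of_notMem hz, Set.indicator_of_mem hzs,
        zero_add, zero_add]
      apply ENNReal.ofReal_le_ofReal
      rw [chi_zero hr hz] at hl2 ⊢
      have e : (1 + chi r (z + s) * (u (z + s) - 1) - (1 + 0 * (u z - 1))) ^ 2 =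
          (chi r (z + s) - 0) ^ 2 * (u (z + s) - 1) ^ 2 := by ring
      rw [e]
      nlinarith [mul_le_mul_of_nonneg_right hl2 (sq_nonneg (u (z + s) - 1)),
        mul_nonneg (sq_nonneg (2 * ‖s‖ / r)) (sq_nonneg (u (z + s) - 1))]
    · rw [chi_zero hr hz, chi_zero hr hzs]
      simp

/-- `∫ (u - 1)²` over the cube -/
def JJ (r : ℝ) (u : (Fin n → ℝ) → ℝ) : ℝ≥0∞ := ∫⁻ z in cube n r, ENNReal.ofReal ((u z - 1) ^ 2)

lemma norm_single (c : Fin n) (h : ℝ) (hh : 0 ≤ h) : ‖(Pi.single c h : Fin n → ℝ)‖ = h := by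
  rw [Pi.norm_single, Real.norm_eq_abs, abs_of_nonneg hh]

lemma gk_cut (hr : 0 < r) {u : (Fin n → ℝ) → ℝ} (hu : BM u) (c : Fin n) (k : ℕ) :
    gk Set.univ c k (cutf r u) ≤ 2 * gk (cube n r) c k u + ENNReal.ofReal (16 / r ^ 2) * JJ r u := by
  unfold gk
  set s : Fin n → ℝ := Pi.single c ((2 : ℝ)⁻¹ ^ k) with hs
  have hns : ‖s‖ = (2 : ℝ)⁻¹ ^ k := norm_single c _ (by positivity)
  have hum := hu.meas
  have hset : {z : Fin n → ℝ | z ∈ (Set.univ : Set (Fin n → ℝ)) ∧
      z + s ∈ (Set.univ : Set (Fin n → ℝ))} = Set.univ := by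
    ext z; simp
  rw [hset, Measure.restrict_univ]
  have h1 : ∫⁻ z, ENNReal.ofReal ((cutf r u (z + s) - cutf r u z) ^ 2) ≤
      ∫⁻ z, ((Es n r s).indicator (fun z => ENNReal.ofReal (2 * (u (z + s) - u z) ^ 2)) z +
      ((cube n r).indicator (fun z => ENNReal.ofReal (2 * (2 * ‖s‖ / r) ^ 2 * (u z - 1) ^ 2)) z +
      (cube n r).indicator (fun z => ENNReal.ofReal (2 * (2 * ‖s‖ / r) ^ 2 * (u z - 1) ^ 2))
        (z + s))) := lintegral_mono fun z => pt hr u z s
  have hm1 : Measurable (fun z => ENNReal.ofReal (2 * (u (z + s) - u z) ^ 2)) :=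
    ((((hum.comp (measurable_id.add_const s)).sub hum).pow_const 2).const_mul 2).ennreal_ofReal
  have hm2 : Measurable (fun z => ENNReal.ofReal (2 * (2 * ‖s‖ / r) ^ 2 * (u z - 1) ^ 2)) :=
    (((hum.sub_const 1).pow_const 2).const_mul _).ennreal_ofReal
  rw [lintegral_add_left (hm1.indicator (measurableSet_Es n r s)),
    lintegral_add_left (hm2.indicator (measurableSet_cube n r)),
    lintegral_add_right_eq_self ((cube n r).indicator
      (fun z => ENNReal.ofReal (2 * (2 * ‖s‖ / r) ^ 2 * (u z - 1) ^ 2))) s,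
    lintegral_indicator (measurableSet_Es n r s), lintegral_indicator (measurableSet_cube n r)]
    at h1
  have h2 : ∫⁻ z in Es n r s, ENNReal.ofReal (2 * (u (z + s) - u z) ^ 2) =
      2 * ∫⁻ z in Es n r s, ENNReal.ofReal ((u (z + s) - u z) ^ 2) := by
    have hm3 : Measurable (fun z => ENNReal.ofReal ((u (z + s) - u z) ^ 2)) :=
      (((hum.comp (measurable_id.add_const s)).sub hum).pow_const 2).ennreal_ofReal
    rw [← lintegral_const_mul _ hm3]
    refine lintegral_congr fun z => ?_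
    rw [ENNReal.ofReal_mul (by norm_num)]
    simp
  have h3 : ∫⁻ z in cube n r, ENNReal.ofReal (2 * (2 * ‖s‖ / r) ^ 2 * (u z - 1) ^ 2) =
      ENNReal.ofReal (2 * (2 * ‖s‖ / r) ^ 2) * JJ r u := by
    unfold JJ
    rw [← lintegral_const_mul _ ((hum.sub_const 1).pow_const 2).ennreal_ofReal]
    refine lintegral_congr fun z => ?_
    rw [ENNReal.ofReal_mul (by positivity)]
  rw [h2, h3] at h1
  have h4 : (4 : ℝ≥0∞) ^ k * ENNReal.ofReal (2 * (2 * ‖s‖ / r) ^ 2) = ENNReal.ofReal (8 / r ^ 2) := by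
    have : (4 : ℝ≥0∞) ^ k = ENNReal.ofReal (4 ^ k) := by
      rw [ENNReal.ofReal_pow (by norm_num)]
      simp
    rw [this, ← ENNReal.ofReal_mul (by positivity), hns]
    congr 1
    have h5 : (4 : ℝ) ^ k * ((2 : ℝ)⁻¹ ^ k) ^ 2 = 1 := by
      rw [← pow_mul, mul_comm k 2, pow_mul, ← mul_pow]
      norm_num
    calc (4 : ℝ) ^ k * (2 * (2 * (2 : ℝ)⁻¹ ^ k / r) ^ 2) =
        (4 : ℝ) ^ k * ((2 : ℝ)⁻¹ ^ k) ^ 2 * (8 / r ^ 2) := by
          field_simp
          ring
      _ = 8 / r ^ 2 := by rw [h5, one_mul]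
  have h6 : ENNReal.ofReal (16 / r ^ 2) = ENNReal.ofReal (8 / r ^ 2) + ENNReal.ofReal (8 / r ^ 2) := by
    rw [← ENNReal.ofReal_add (by positivity) (by positivity)]
    congr 1
    ring
  calc 4 ^ k * ∫⁻ z, ENNReal.ofReal ((cutf r u (z + s) - cutf r u z) ^ 2) ≤
      4 ^ k * ((2 * ∫⁻ z in Es n r s, ENNReal.ofReal ((u (z + s) - u z) ^ 2)) +
        (ENNReal.ofReal (2 * (2 * ‖s‖ / r) ^ 2) * JJ r u +
        ENNReal.ofReal (2 * (2 * ‖s‖ / r) ^ 2) * JJ r u)) := mul_le_mul_right h1 _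
    _ = 2 * (4 ^ k * ∫⁻ z in Es n r s, ENNReal.ofReal ((u (z + s) - u z) ^ 2)) +
        (4 ^ k * ENNReal.ofReal (2 * (2 * ‖s‖ / r) ^ 2) +
          4 ^ k * ENNReal.ofReal (2 * (2 * ‖s‖ / r) ^ 2)) * JJ r u := by ring
    _ = _ := by
        rw [h4, h6]
        rfl

lemma gr_cut (hr : 0 < r) {u : (Fin n → ℝ) → ℝ} (hu : BM u) :
    gr Set.univ (cutf r u) ≤ 2 * gr (cube n r) u + n * (ENNReal.ofReal (16 / r ^ 2) * JJ r u) := by
  unfold gr
  have h1 : ∀ c : Fin n, ⨆ k, gk Set.univ c k (cutf r u) ≤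
      2 * (⨆ k, gk (cube n r) c k u) + ENNReal.ofReal (16 / r ^ 2) * JJ r u := by
    intro c
    refine iSup_le fun k => (gk_cut hr hu c k).trans ?_
    gcongr
    exact le_iSup (fun k => gk (cube n r) c k u) k
  calc ∑ c : Fin n, ⨆ k, gk Set.univ c k (cutf r u) ≤
      ∑ c : Fin n, (2 * (⨆ k, gk (cube n r) c k u) + ENNReal.ofReal (16 / r ^ 2) * JJ r u) :=
        Finset.sum_le_sum fun c _ => h1 c
    _ = _ := by
        rw [Finset.sum_add_distrib, ← Finset.mul_sum, Finset.sum_const, Finset.card_univ,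
          Fintype.card_fin, nsmul_eq_mul]

lemma vol_cube (hr : 0 ≤ r) : volume (cube n r) = ENNReal.ofReal ((2 * r) ^ n) := by
  have : cube n r = Set.Icc (fun _ => -r) (fun _ => r) := by
    ext z
    simp only [cube, Set.mem_ofPred_eq, Set.mem_Icc, Pi.le_def, abs_le]
    exact ⟨fun h => ⟨fun c => (h c).1, fun c => (h c).2⟩, fun h c => ⟨h.1 c, h.2 c⟩⟩
  rw [this, Real.volume_Icc_pi]
  simp only [sub_neg_eq_add, Finset.prod_const, Finset.card_univ, Fintype.card_fin]
  rw [← ENNReal.ofReal_pow (by linarith)]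
  congr 2
  ring

lemma JJ_le (hr : 0 < r) {u : (Fin n → ℝ) → ℝ} (hu : BM u)
    (hint : ∫ z in cube n r, u z = (2 * r) ^ n) :
    ENNReal.ofReal ((2 * r) ^ n) * JJ r u ≤
      ∫⁻ x in cube n r, ∫⁻ y in cube n r, ENNReal.ofReal ((u x - u y) ^ 2) := by
  unfold JJ
  have hum := hu.meas
  rw [← lintegral_const_mul _ ((hum.sub_const 1).pow_const 2).ennreal_ofReal]
  refine lintegral_mono fun x => ?_
  obtain ⟨B, hB⟩ := hu.bdd
  have hvol : volume (cube n r) < ⊤ := by
    rw [vol_cube hr.le]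
    exact ENNReal.ofReal_lt_top
  have : IsFiniteMeasure (volume.restrict (cube n r)) := ⟨by simpa using hvol⟩
  have hi1 : Integrable u (volume.restrict (cube n r)) :=
    Integrable.of_bound hum.aestronglyMeasurable B
      (Filter.Eventually.of_forall fun z => by simpa using hB z)
  have hi2 : Integrable (fun y => (u y - 1) ^ 2) (volume.restrict (cube n r)) := by
    refine Integrable.of_bound ((hum.sub_const 1).pow_const 2).aestronglyMeasurable
      ((B + 1) ^ 2) (Filter.Eventually.of_forall fun z => ?_)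
    rw [Real.norm_eq_abs, abs_of_nonneg (sq_nonneg _), ← sq_abs]
    apply pow_le_pow_left₀ (abs_nonneg _)
    have h1 := abs_sub (u z) 1
    have h2 := hB z
    rw [abs_one] at h1
    linarith
  have hi3 : Integrable (fun y => (u x - u y) ^ 2) (volume.restrict (cube n r)) := by
    refine Integrable.of_bound ((hum.const_sub (u x)).pow_const 2).aestronglyMeasurable
      ((B + B) ^ 2) (Filter.Eventually.of_forall fun z => ?_)
    rw [Real.norm_eq_abs, abs_of_nonneg (sq_nonneg _), ← sq_abs]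
    apply pow_le_pow_left₀ (abs_nonneg _)
    have h1 := abs_sub (u x) (u z)
    have h2 := hB z
    have h3 := hB x
    linarith
  have hone : ∫ _y in cube n r, (1 : ℝ) = (2 * r) ^ n := by
    rw [setIntegral_const, Measure.real, vol_cube hr.le, ENNReal.toReal_ofReal (by positivity)]
    simp
  have key : (2 * r) ^ n * (u x - 1) ^ 2 ≤ ∫ y in cube n r, (u x - u y) ^ 2 := by
    have e : ∫ y in cube n r, (u x - u y) ^ 2 =
        ∫ y in cube n r, ((u x - 1) ^ 2 * 1 - 2 * (u x - 1) * (u y - 1) + (u y - 1) ^ 2) := by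
      refine integral_congr_ae (Filter.Eventually.of_forall fun y => ?_)
      simp only
      ring
    have hi4 : Integrable (fun y => u y - 1) (volume.restrict (cube n r)) :=
      hi1.sub (integrable_const _)
    rw [e, integral_add _ hi2, integral_sub _ _, integral_const_mul, integral_const_mul, hone,
      integral_sub hi1 (integrable_const _), hint, hone, sub_self, mul_zero, sub_zero]
    · have h0 : 0 ≤ ∫ y in cube n r, (u y - 1) ^ 2 :=
        integral_nonneg fun y => sq_nonneg _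
      linarith
    · exact (integrable_const _).const_mul _
    · exact hi4.const_mul _
    · exact ((integrable_const _).const_mul _).sub (hi4.const_mul _)
  rw [← ENNReal.ofReal_mul (by positivity)]
  calc ENNReal.ofReal ((2 * r) ^ n * (u x - 1) ^ 2) ≤
      ENNReal.ofReal (∫ y in cube n r, (u x - u y) ^ 2) := ENNReal.ofReal_le_ofReal key
    _ = ∫⁻ y in cube n r, ENNReal.ofReal ((u x - u y) ^ 2) :=
        ofReal_integral_eq_lintegral_ofReal hi3 (Filter.Eventually.of_forall fun y => sq_nonneg _)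

lemma measurable_el : Measurable (el : (Fin n → ℝ) → ℝ) := by
  have : Continuous (el : (Fin n → ℝ) → ℝ) := by
    unfold el
    fun_prop
  exact this.measurable

lemma cutf_meas {u : (Fin n → ℝ) → ℝ} (hu : BM u) : Measurable (cutf r u) := by
  have h1 : Continuous (fun x : Fin n → ℝ => max 0 (min 1 (2 - 2 * ‖x‖ / r))) := by fun_prop
  unfold cutf
  exact (h1.measurable.mul (hu.meas.sub_const 1)).const_add 1

lemma pot (hr : 0 < r) {v : ℝ → ℝ≥0∞} (hv : Measurable v) {u : (Fin n → ℝ) → ℝ} (hu : BM u) :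
    ∫⁻ z : Fin n → ℝ, v (el z) * ENNReal.ofReal (cutf r u z ^ 2) ≤
      (∫⁻ z in cube n r, v (el z) * ENNReal.ofReal (u z ^ 2)) + ∫⁻ z : Fin n → ℝ, v (el z) := by
  have hvm : Measurable (fun z : Fin n → ℝ => v (el z)) := hv.comp measurable_el
  rw [← lintegral_indicator (measurableSet_cube n r), ← lintegral_add_right _ hvm]
  refine lintegral_mono fun z => ?_
  have hc0 := chi_nonneg (r := r) z
  have hc1 := chi_le_one (r := r) z
  by_cases hz : z ∈ cube n r
  · rw [Set.indicator_of_mem hz]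
    calc v (el z) * ENNReal.ofReal (cutf r u z ^ 2) ≤
        v (el z) * (ENNReal.ofReal (u z ^ 2) + 1) := by
          apply mul_le_mul_right
          rw [← ENNReal.ofReal_one, ← ENNReal.ofReal_add (sq_nonneg _) zero_le_one]
          apply ENNReal.ofReal_le_ofReal
          rw [cutf_eq]
          nlinarith [mul_nonneg hc0 (sub_nonneg.2 hc1), mul_nonneg (mul_nonneg hc0
            (sub_nonneg.2 hc1)) (sq_nonneg (u z - 1)), mul_nonneg (sub_nonneg.2 hc1)
            (sq_nonneg (u z))]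
      _ = v (el z) * ENNReal.ofReal (u z ^ 2) + v (el z) := by rw [mul_add, mul_one]
  · rw [Set.indicator_of_notMem hz, zero_add, cutf_eq, chi_zero hr hz]
    simp

theorem proof_cut : S_POIC → S_CUT := by
  intro hP n μ v hn hμ hv hfin
  obtain ⟨A, hA, hPA⟩ := hP n hn
  set Vt : ℝ≥0∞ := 2⁻¹ * ∫⁻ z : Fin n → ℝ, v (el z) with hVt
  have hVfin : Vt ≠ ⊤ := ENNReal.mul_ne_top (by simp) hfin
  refine ⟨2 + 16 * n * A + Vt.toReal, by positivity, ?_⟩
  intro r hr1 u hu hint
  have hr : 0 < r := by linarith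
  refine ⟨?_, ?_⟩
  · refine { meas := cutf_meas hu, bdd := ?_, out := ⟨r, fun z hz => ?_⟩ }
    · obtain ⟨B, hB⟩ := hu.bdd
      refine ⟨1 + (B + 1), fun z => ?_⟩
      rw [cutf_eq]
      have h1 := abs_add_le 1 (chi r z * (u z - 1))
      rw [abs_one, abs_mul, abs_of_nonneg (chi_nonneg z)] at h1
      have h2 := abs_sub (u z) 1
      rw [abs_one] at h2
      have h3 := hB z
      have h4 : chi r z * |u z - 1| ≤ 1 * |u z - 1| :=
        mul_le_mul_of_nonneg_right (chi_le_one z) (abs_nonneg _)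
      linarith
    · rw [cutf_eq, chi_zero hr hz]
      ring
  · have h1 := gr_cut hr hu
    have h2 := JJ_le hr hu hint
    have h3 := hPA r hr u hu
    -- bound for JJ
    have hJ : ENNReal.ofReal (16 / r ^ 2) * JJ r u ≤ ENNReal.ofReal (16 * A) * gr (cube n r) u := by
      have h4 : ENNReal.ofReal (16 / r ^ 2) =
          ENNReal.ofReal (16 / r ^ 2 / (2 * r) ^ n) * ENNReal.ofReal ((2 * r) ^ n) := by
        rw [← ENNReal.ofReal_mul (by positivity)]
        congr 1
        field_simp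
      rw [h4, mul_assoc]
      calc ENNReal.ofReal (16 / r ^ 2 / (2 * r) ^ n) * (ENNReal.ofReal ((2 * r) ^ n) * JJ r u) ≤
          ENNReal.ofReal (16 / r ^ 2 / (2 * r) ^ n) *
            (ENNReal.ofReal (A * r ^ (n + 2)) * gr (cube n r) u) :=
            mul_le_mul_right (h2.trans h3) _
        _ = ENNReal.ofReal (16 / r ^ 2 / (2 * r) ^ n * (A * r ^ (n + 2))) * gr (cube n r) u := by
            rw [← mul_assoc, ← ENNReal.ofReal_mul (by positivity)]
        _ ≤ ENNReal.ofReal (16 * A) * gr (cube n r) u := by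
            apply mul_le_mul_left
            apply ENNReal.ofReal_le_ofReal
            have h5 : 16 / r ^ 2 / (2 * r) ^ n * (A * r ^ (n + 2)) = 16 * A / 2 ^ n := by
              rw [mul_pow, pow_add]
              field_simp
            rw [h5]
            exact div_le_self (by positivity) (one_le_pow₀ (by norm_num))
    have h6 : gr Set.univ (cutf r u) ≤ ENNReal.ofReal (2 + 16 * n * A) * gr (cube n r) u := by
      refine h1.trans ?_
      calc 2 * gr (cube n r) u + n * (ENNReal.ofReal (16 / r ^ 2) * JJ r u) ≤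
          2 * gr (cube n r) u + n * (ENNReal.ofReal (16 * A) * gr (cube n r) u) := by gcongr
        _ = ENNReal.ofReal (2 + 16 * n * A) * gr (cube n r) u := by
            rw [ENNReal.ofReal_add (by norm_num) (by positivity), add_mul]
            congr 1
            · simp
            · rw [← mul_assoc]
              congr 1
              rw [show 16 * (n : ℝ) * A = n * (16 * A) by ring,
                ENNReal.ofReal_mul (Nat.cast_nonneg n), ENNReal.ofReal_natCast]
    have h7 := pot hr hv hu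
    unfold QD
    rw [Measure.restrict_univ]
    set C₀ : ℝ := 2 + 16 * n * A with hC₀
    have hC₀1 : 1 ≤ C₀ := by
      have : 0 ≤ 16 * (n : ℝ) * A := by positivity
      linarith
    have hVr : Vt = ENNReal.ofReal Vt.toReal := (ENNReal.ofReal_toReal hVfin).symm
    have hCle : ENNReal.ofReal C₀ ≤ ENNReal.ofReal (C₀ + Vt.toReal) :=
      ENNReal.ofReal_le_ofReal (by linarith [ENNReal.toReal_nonneg (a := Vt)])
    have hVle : Vt ≤ ENNReal.ofReal (C₀ + Vt.toReal) := by
      rw [hVr]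
      apply ENNReal.ofReal_le_ofReal
      rw [ENNReal.toReal_ofReal ENNReal.toReal_nonneg]
      linarith
    have hone : (1 : ℝ≥0∞) ≤ ENNReal.ofReal (C₀ + Vt.toReal) := by
      rw [← ENNReal.ofReal_one]
      apply ENNReal.ofReal_le_ofReal
      linarith [ENNReal.toReal_nonneg (a := Vt)]
    calc ENNReal.ofReal μ * gr Set.univ (cutf r u) +
          2⁻¹ * ∫⁻ z, v (el z) * ENNReal.ofReal (cutf r u z ^ 2) ≤
        ENNReal.ofReal μ * (ENNReal.ofReal C₀ * gr (cube n r) u) +
          2⁻¹ * ((∫⁻ z in cube n r, v (el z) * ENNReal.ofReal (u z ^ 2)) +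
            ∫⁻ z : Fin n → ℝ, v (el z)) := by gcongr
      _ = ENNReal.ofReal C₀ * (ENNReal.ofReal μ * gr (cube n r) u) +
          (1 * (2⁻¹ * ∫⁻ z in cube n r, v (el z) * ENNReal.ofReal (u z ^ 2)) + Vt * 1) := by
          rw [hVt]
          ring
      _ ≤ ENNReal.ofReal (C₀ + Vt.toReal) * (ENNReal.ofReal μ * gr (cube n r) u) +
          (ENNReal.ofReal (C₀ + Vt.toReal) *
            (2⁻¹ * ∫⁻ z in cube n r, v (el z) * ENNReal.ofReal (u z ^ 2)) +
            ENNReal.ofReal (C₀ + Vt.toReal) * 1) := by gcongr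
      _ = _ := by ring

end

end Pool.Agent.W327.CC
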